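import Pool.Agent.H83.V.AllW

set_option autoImplicit false

open Finset

namespace Pool.Agent.H22.Kept.Unpredictability

/-- The Liouville function `λ` (`z = true`) or the Möbius function `μ` (`z = false`). -/
def f (z : Bool) (n : ℕ) : ℤ :=
  if z then (-1) ^ ArithmeticFunction.cardFactors n else ArithmeticFunction.moebius n

/-- `G` is a code: no two elements of `G` differ exactly by the sign at one place of `I`. -/
def IsCode {m : ℕ} (I : Finset (Fin m)) (G : Set (Fin m → ℤ)) : Prop :=
  ∀ v ∈ G, ∀ w ∈ G, ∀ i ∈ I, ¬ (v i ≠ 0 ∧ w i = -v i ∧ ∀ j, j ≠ i → w j = v j)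

open Classical in
/-- **The signs of `λ` and of `μ` cannot be predicted from their neighbours.** At almost all scales
`N`, for all but at most `θ N` of the short windows `[n, n + H)`, `n ≤ N`, no code `G`, which may
depend on the window, contains all the patterns `(f(n + h + 1), …, f(n + h + m))`, `h < H`, up to a
proportion `c |I| / m`, where `c` depends on `θ` only. For example, let `I` be the middle place of
`m = 2 k + 1` places and `G` the set of all `v` such that the value of `v` at the middle place is
zero or the value `D` (the other places) of some rule `D`: no rule which knows the `k` values on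
each side of `u` predicts the sign of `f(u)` with less than `c / m` of mistakes. -/
theorem result (z : Bool) (m : ℕ) (I : Finset (Fin m)) (hI : I.Nonempty) (θ ρ : ℝ) (hθ : 0 < θ)
    (hρ : 0 < ρ) :
    ∃ H₀ : ℕ, ∀ H, H₀ ≤ H → ∃ C : ℕ, ∀ x y : ℕ, 0 < x → C * x ≤ y →
      ∑ N ∈ (Icc x y).filter (fun N : ℕ => θ * N <
        (#{n ∈ Icc 1 N | ∃ G : Set (Fin m → ℤ), IsCode I G ∧
          (#{h ∈ range H | (fun i : Fin m => f z (n + h + i + 1)) ∉ G} : ℝ) ≤
            θ ^ 4 * #I / (10 ^ 21 * m) * H} : ℝ)), (1 : ℝ) / N ≤
        ρ * Real.log ((y : ℝ) / x) :=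
  Pool.Agent.H83.V.Hand.mainW z m I hI θ ρ hθ hρ

end Pool.Agent.H22.Kept.Unpredictability
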